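import Mathlib
import Pool.Agent.V8H44.TH.Graph
import Pool.Agent.V8H44.TH.Final

set_option autoImplicit false

/-!
# The theta graphs with a route of two edges are metrizable

`PathSystem`, `Consistent`, `Induces` and `Metrizable` are defined in
`Pool.Agent.V8H16.Theta.Defs`, the graph `theta a b c` in `Pool.Agent.V8H44.TH.Graph`.
-/

namespace Pool.Agent.Results.MP_d7339e_co.ThetaTwo

open Pool.Agent.V8H16.Theta Pool.Agent.V8H44.TH

/-- `Θ_{2,b,c}` is metrizable for all `b, c ≥ 2`. -/
theorem result : ∀ b c : ℕ, 2 ≤ b → 2 ≤ c → Metrizable (theta 2 b c) := by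
  intro b c hb hc
  obtain ⟨R, hR⟩ := exists_isTheta 2 b c (le_refl 2) hb hc
  exact metrizable_of_isTheta hR rfl (by
    intro r
    fin_cases r
    · exact le_refl 2
    · exact hb
    · exact hc)

end Pool.Agent.Results.MP_d7339e_co.ThetaTwo
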